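import Mathlib
import Pool.Agent.Q8.WR.Pen
import Pool.Agent.TH841.PM.Fin2

/-!
# Tate-Shafarevich groups of products of Weil restrictions of pencils

For `1 ≤ j ≤ g` let `W_{j,t} : y² = (x - e₁(t)) (x - e₂(t)) (x - e₃(t))` be a one-parameter family of
elliptic curves with `e₂ - e₁ = D₀ u₀`, `e₃ - e₁ = D₀ u₁`, where `u₀`, `u₁`, `u₂ = u₀ - u₁` are
products of `n_k` irreducible polynomials, pairwise different and not dividing `D₀`, and let
`F_{j,t} = ℚ(√D₁(t), ..., √D_s(t))` with polynomials not divisible by them either; all these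
polynomials depend on `j`. Let `A_t = ∏_j Res_{F_{j,t}/ℚ} W_{j,t}`, an abelian variety over `ℚ` of
dimension `∑_j [F_{j,t} : ℚ]`. If `2 n_k < n₀ + n₁ + n₂` for all `k` and `j`, all the moments of
`2 ^ (rank A_t(ℚ) + corank of the 2-primary part of Ш(A_t))` are bounded outside of one set of
integers `t` of density zero.
-/

set_option autoImplicit false

namespace Pool.Agent.Results.MP_a43263_nt.WeilRestrictionPencils

open Finset Polynomial

/-- the curve `y² = x³ + A x + B` over `F` -/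
def EF (A B : ℤ) (F : Type) [Field F] : WeierstrassCurve F := ⟨0, 0, 0, (A : F), (B : F)⟩

/-- the number field `F` is generated by square roots of the integers `d i` -/
def Gen (F : Type) [Field F] [NumberField F] {s : ℕ} (d : Fin s → ℤ) : Prop :=
  ∃ x : Fin s → F, (∀ i, x i ^ 2 = (d i : F)) ∧
    IntermediateField.adjoin ℚ (Set.range x) = ⊤

/-- the Tate-Shafarevich group `∏_j Ш(W_j / F_j)` of the abelian variety `∏_j Res_{F_j/ℚ} W_j` -/
abbrev Sha {g : ℕ} {F : Fin g → Type} [∀ j, Field (F j)] [∀ j, NumberField (F j)]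
    (W : ∀ j, WeierstrassCurve (F j)) : Type := ∀ j, Pool.Agent.TH841.NF.D.Sha (W j)

/-- `Ш` of `∏_j Res_{F_j/ℚ} W_j` has a subgroup isomorphic to `(ℚ₂ / ℤ₂) ^ q` -/
def HasDiv {g : ℕ} {F : Fin g → Type} [∀ j, Field (F j)] [∀ j, NumberField (F j)]
    (W : ∀ j, WeierstrassCurve (F j)) (q : ℕ) : Prop :=
  ∃ f : (Fin q → Pool.Agent.TH841.SH.D.Pruf) →+ Sha W, Function.Injective f

/-- the corank of the 2-primary part of `Ш` of `∏_j Res_{F_j/ℚ} W_j` -/
noncomputable def corank {g : ℕ} {F : Fin g → Type} [∀ j, Field (F j)] [∀ j, NumberField (F j)]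
    (W : ∀ j, WeierstrassCurve (F j)) : ℕ := sSup {q | HasDiv W q}

open scoped Classical in
/-- the rank of the group `∏_j W_j(F_j)` of the rational points of `∏_j Res_{F_j/ℚ} W_j` -/
noncomputable def rk {g : ℕ} {F : Fin g → Type} [∀ j, Field (F j)] [∀ j, NumberField (F j)]
    (W : ∀ j, WeierstrassCurve (F j)) : ℕ :=
  Module.finrank ℤ (∀ j, (W j).toAffine.Point)

/-- the data of a pencil over varying multiquadratic fields -/
structure Pencil where
  /-- the number of the factors of `u_k` -/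
  n : Fin 3 → ℕ
  /-- the constants -/
  a : Fin 3 → ℤ
  /-- the factors of `u_k` -/
  f : ∀ k : Fin 3, Fin (n k) → ℤ[X]
  /-- the twisting polynomial `D₀` -/
  D₀ : ℤ[X]
  /-- the number of the square roots -/
  s : ℕ
  /-- the polynomials `D₁, ..., D_s` -/
  D : Fin s → ℤ[X]
  /-- the coefficient of `x` -/
  A : ℤ[X]
  /-- the constant coefficient -/
  B : ℤ[X]
  /-- the roots -/
  e : Fin 3 → ℤ[X]

namespace Pencil

/-- `u_k = a_k ∏ f_{k,i}` -/
noncomputable def u (P : Pencil) (k : Fin 3) : ℤ[X] := C (P.a k) * ∏ i, P.f k i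

/-- The pencil is admissible: the `a_k` are nonzero, the polynomials `f_{k,i}` are irreducible of
positive degree and pairwise non-associated, `u₀ - u₁ = u₂`, `2 n_k < n₀ + n₁ + n₂` for all `k`; the
polynomials `D₀`, `D₁`, ..., `D_s` are nonzero and divisible by none of the `f_{k,i}`; and
`x³ + A x + B = (x - e₁) (x - e₂) (x - e₃)` with `e₂ - e₁ = D₀ u₀` and `e₃ - e₁ = D₀ u₁`. -/
def Good (P : Pencil) : Prop :=
  (∀ k, P.a k ≠ 0) ∧ (∀ k i, Irreducible (P.f k i) ∧ 0 < (P.f k i).natDegree) ∧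
  (∀ k i l j, (⟨k, i⟩ : Σ k : Fin 3, Fin (P.n k)) ≠ ⟨l, j⟩ → ¬ Associated (P.f k i) (P.f l j)) ∧
  P.u 0 - P.u 1 = P.u 2 ∧ (∀ k, 2 * P.n k < P.n 0 + P.n 1 + P.n 2) ∧
  P.D₀ ≠ 0 ∧ (∀ k i, ¬ P.f k i ∣ P.D₀) ∧ (∀ l, P.D l ≠ 0) ∧ (∀ l k i, ¬ P.f k i ∣ P.D l) ∧
  (∀ t x : ℤ, x ^ 3 + P.A.eval t * x + P.B.eval t =
    (x - (P.e 0).eval t) * (x - (P.e 1).eval t) * (x - (P.e 2).eval t)) ∧
  P.e 1 - P.e 0 = P.D₀ * P.u 0 ∧ P.e 2 - P.e 0 = P.D₀ * P.u 1

end Pencil

open Classical in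
/-- a set of integers of density zero, uniformly in all the intervals `(N, N + M]` with
`|N| ≤ M ^ L`, for every `L` -/
def DensityZero (Z : Set ℤ) : Prop := ∀ (L : ℕ) (ε : ℝ), 0 < ε → ∃ M₀ : ℕ, ∀ (N : ℤ) (M : ℕ),
  M₀ ≤ M → |N| ≤ (M : ℤ) ^ L → (((Ioc N (N + (M : ℤ))).filter (fun t => t ∈ Z)).card : ℝ) ≤ ε * M

open Classical in
/-- **Theorem.** Let `P_1, ..., P_g` be admissible pencils over varying multiquadratic fields,
`g ≥ 1`. There is a set `Z` of density zero such that for `t` outside of `Z` all the numbers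
`(D₀ u_k)(t)` and `D_i(t)` are nonzero, and for all `k` and `L` there is `C` such that for `M ≥ 1`,
`|N| ≤ M ^ L` the following holds for the `t` in `(N, N + M]` outside of `Z`, the number fields
`F_{j,t} = ℚ(√D₁(t), ..., √D_s(t))` and the curves `W_{j,t} : y² = x³ + A(t) x + B(t)` over `F_{j,t}`
(all with the data of `P_j`), and the abelian varieties `A_t = ∏_j Res_{F_{j,t}/ℚ} W_{j,t}` over `ℚ`:
the coranks of the 2-primary parts of `Ш(A_t)` are finite, the sum of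
`2 ^ (k (rank A_t + corank Ш(A_t)[2^∞]))` is at most `C M`, and at most `C M / 2 ^ (k m)` of these
`t` have `rank A_t + corank Ш(A_t)[2^∞] ≥ m`. -/
theorem result (g : ℕ) (hg : 1 ≤ g) (P : Fin g → Pencil) (hP : ∀ j, (P j).Good) :
    ∃ Z : Set ℤ, DensityZero Z ∧
      (∀ t, t ∉ Z → ∀ j, (∀ k, ((P j).D₀ * (P j).u k).eval t ≠ 0) ∧
        ∀ i, ((P j).D i).eval t ≠ 0) ∧
      ∀ k L : ℕ, ∃ C : ℝ, ∀ (N : ℤ) (M : ℕ), 1 ≤ M → |N| ≤ (M : ℤ) ^ L → ∀ S : Finset ℤ,
        S = (Ioc N (N + (M : ℤ))).filter (fun t => t ∉ Z) →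
        ∀ (F : ℤ → Fin g → Type) [∀ t j, Field (F t j)] [∀ t j, NumberField (F t j)],
        (∀ t ∈ S, ∀ j, Gen (F t j) (fun i => ((P j).D i).eval t)) →
        ∀ W : ∀ t j, WeierstrassCurve (F t j),
        (∀ t j, W t j = EF ((P j).A.eval t) ((P j).B.eval t) (F t j)) →
        (∀ t ∈ S, BddAbove {q | HasDiv (W t) q}) ∧
        ∑ t ∈ S, ((2 : ℝ) ^ (rk (W t) + corank (W t))) ^ k ≤ C * M ∧
        ∀ m : ℕ, ((S.filter (fun t => m ≤ rk (W t) + corank (W t))).card : ℝ) ≤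
          C * M / 2 ^ (k * m) := by
  have hg0 : NeZero g := ⟨by omega⟩
  obtain ⟨Z, h1, h2, h3⟩ := Pool.Agent.Q8.WR.penA Pool.Agent.TH841.PM.tavz (fun j => (P j).n)
    (fun j => (P j).a) (fun j => (P j).f) (fun j => (hP j).1)
    (fun j => ⟨fun x => ((hP j).2.1 x.1 x.2).1, fun x => ((hP j).2.1 x.1 x.2).2,
      fun x y hxy => (hP j).2.2.1 x.1 x.2 y.1 y.2 hxy⟩)
    (fun j => (hP j).2.2.2.1) (fun j => (hP j).2.2.2.2.1) (fun j => (P j).s) (fun j => (P j).D₀)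
    (fun j => (hP j).2.2.2.2.2.1) (fun j => (hP j).2.2.2.2.2.2.1) (fun j => (P j).D)
    (fun j => (hP j).2.2.2.2.2.2.2.1) (fun j => (hP j).2.2.2.2.2.2.2.2.1)
    (fun j => (P j).A) (fun j => (P j).B) (fun j => (P j).e 0) (fun j => (P j).e 1)
    (fun j => (P j).e 2) (fun j => (hP j).2.2.2.2.2.2.2.2.2.1)
    (fun j => (hP j).2.2.2.2.2.2.2.2.2.2.1) (fun j => (hP j).2.2.2.2.2.2.2.2.2.2.2)
  refine ⟨Z, h1, h2, fun k L => ?_⟩
  obtain ⟨C, hC⟩ := h3 k L
  refine ⟨C, fun N M hM hN S hS F _ _ hF W hW => ?_⟩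
  obtain ⟨g1, g2, g3⟩ := hC N M hM hN S hS F hF W hW
  have hrk : ∀ t, rk (W t) = Pool.Agent.Q8.WR.rkA (W t) := by
    intro t
    unfold rk Pool.Agent.Q8.WR.rkA
    congr!
  refine ⟨g1, ?_, fun m => ?_⟩
  · simp only [hrk]
    exact g2
  · simp only [hrk]
    exact g3 m

end Pool.Agent.Results.MP_a43263_nt.WeilRestrictionPencils
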